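import Pool.Agent.Lib.MP_af0b91_an.Coarse

set_option autoImplicit false

namespace Pool.Agent.Results.MP_af0b91_an.UniformBound

open Pool.Agent.Lib.MP_af0b91_an Filter Topology Set UpperHalfPlane

/-- For every homeomorphism `g` of a closed hyperbolic surface that is homotopic to a
pseudo-Anosov map there is `M > 0` such that every set `K` (in particular every continuum) whose
dynamical diameter exceeds `M` has infinite dynamical diameter. -/
theorem result {S : Type*} [TopologicalSpace S] [T2Space S] [CompactSpace S] {π : ℍ → S}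
    (hπ : IsHyperbolicCover π) (g φ : S ≃ₜ S) (hφ : IsPseudoAnosov φ)
    (hg : ContinuousMap.Homotopic (g : C(S, S)) (φ : C(S, S))) :
    ∃ M : ℝ, 0 < M ∧ ∀ K : Set S, ENNReal.ofReal M < dynDiam π g K → dynDiam π g K = ⊤ := by
  obtain ⟨F, lam, hlam, hsing, haff⟩ := hφ
  have hcov : ∀ x : ℍ, ∃ c : CChart ℍ, IsUpChart F π c ∧ x ∈ c.z.source :=
    up_cover hπ.covering.isLocalHomeomorph
  have hcont := hπ.covering.isLocalHomeomorph.continuous
  obtain ⟨n, hn⟩ := exists_fund hπ
  have hcc : Cocpt (upAtlas F π hcont hcov) (Metric.closedBall UpperHalfPlane.I (n : ℝ)) :=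
    { compact := isCompact_closedBall _ _
      move := fun x => by
        obtain ⟨T, hT, hTx⟩ := hn x
        exact ⟨T.toHomeomorph, hTx, fun a b => deck_invariant hcont hcov T.toHomeomorph hT a b⟩ }
  have hd : FlatData π (fdist (upAtlas F π hcont hcov)) :=
    { nonneg := fdist_nonneg _
      self := fdist_self _
      comm := fdist_comm _
      triangle := fdist_triangle _
      cont := continuous_fdist _
      invariant := fun T hT a b => deck_invariant hcont hcov T.toHomeomorph hT a b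
      proper := fun x R => hcc.isCompact_ball x R }
  have hdisc := sing_discrete (F := F) hπ.covering.isLocalHomeomorph hcov
  obtain ⟨ψ, hψ⟩ := exists_lift hπ φ
  have hlam0 : 0 < lam := by linarith
  have hψa : AffLift F π ψ lam := by
    refine ⟨fun x => by rw [hψ]; exact hsing _, fun e he e' he' x hx hx' => ?_⟩
    obtain ⟨s, t, c, hs, ht, hev⟩ := haff e he e' he' (π x) hx (by rwa [← hψ])
    refine ⟨s, t, c, hs, ht, ?_⟩
    filter_upwards [hcont.continuousAt.eventually hev] with y hy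
    rw [hψ]
    exact hy
  obtain ⟨G, hG, hGT⟩ := exists_close_lift hπ hg hψ
  -- bounded distance
  obtain ⟨C0, hC0⟩ := (isCompact_closedBall UpperHalfPlane.I (n : ℝ)).exists_bound_of_continuousOn
    (f := fun x => fdist (upAtlas F π hcont hcov) (ψ x) (G x))
    (hd.cont.comp (ψ.continuous.prodMk G.continuous)).continuousOn
  have hC0' : ∀ x, fdist (upAtlas F π hcont hcov) (ψ x) (G x) ≤ C0 := by
    intro x
    obtain ⟨T, hT, hTx⟩ := hn x
    obtain ⟨T', hT', h1, h2⟩ := hGT T hT
    rw [← hd.invariant T' hT', ← h1, ← h2]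
    exact (le_abs_self _).trans (hC0 (T x) hTx)
  have hLip := (lift_main hcont hcov hcc halfPlaneHomeo hdisc hlam0 hψa).2
  have hLip' := (lift_main hcont hcov hcc halfPlaneHomeo hdisc (inv_pos.mpr hlam0)
    (hψa.symm hlam0.ne')).2
  have hν : 0 ≤ max lam lam⁻¹ := le_max_of_le_left hlam0.le
  have hν' : 0 ≤ max lam⁻¹ lam⁻¹⁻¹ := le_max_of_le_left (inv_pos.mpr hlam0).le
  have hC1 : ∀ x, fdist (upAtlas F π hcont hcov) (ψ⁻¹ x) (G⁻¹ x) ≤ max lam⁻¹ lam⁻¹⁻¹ * C0 := by
    intro x
    have h1 := hLip' (G (G⁻¹ x)) (ψ (G⁻¹ x))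
    have h2 : G (G⁻¹ x) = x := G.apply_symm_apply x
    have h3 : ψ.symm (ψ (G⁻¹ x)) = G⁻¹ x := ψ.symm_apply_apply _
    rw [h3, h2] at h1
    have h4 : ψ.symm x = ψ⁻¹ x := rfl
    rw [h4] at h1
    refine h1.trans (mul_le_mul_of_nonneg_left ?_ hν')
    rw [hd.comm]
    have h5 := hC0' (G⁻¹ x)
    rwa [h2] at h5
  obtain ⟨N, hN⟩ := pow_unbounded_of_one_lt 4 hlam
  obtain ⟨C2, hC2⟩ := pow_close (fdist (upAtlas F π hcont hcov)) hd.triangle hν hLip hC0' hd.self N
  obtain ⟨C3, hC3⟩ := pow_close (fdist (upAtlas F π hcont hcov)) hd.triangle (ψ := ψ⁻¹) (G := G⁻¹)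
    hν' hLip' hC1 hd.self N
  have hexp := (lift_main hcont hcov hcc halfPlaneHomeo hdisc (pow_pos hlam0 N)
    (hψa.pow hcont N)).1
  refine hd.conclude hπ hG (N := N) (C := max C2 C3) ?_
    (fun x => (hC2 x).trans (le_max_left _ _)) (fun x => (hC3 x).trans (le_max_right _ _))
  intro x y
  have h1 := hexp x y
  have h2 : (ψ ^ N).symm = ψ⁻¹ ^ N := by
    rw [inv_pow]
    rfl
  rw [h2] at h1
  refine le_trans ?_ h1
  exact mul_le_mul_of_nonneg_right hN.le (hd.nonneg x y)

end Pool.Agent.Results.MP_af0b91_an.UniformBound
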